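import Pool.Agent.H95.CP.Grd
import Pool.Agent.H67.CM.Kraft
import Pool.Agent.H67.CM.Gap
import Pool.Agent.H74.CM.Column

set_option autoImplicit false

/-! Definitions for the compression argument. -/

namespace Pool.Agent.H98.CP

open Finset ComplexConjugate H95.CP

/-- side of the group -/
abbrev LL (M : ℕ) : ℕ := 8 ^ (M + 2)

/-- the group -/
abbrev G (M : ℕ) := GG (LL M)

/-- error level: the square of the error at level `j` is `TH j / 8 ^ M` -/
noncomputable def TH (j : ℕ) : ℝ := 8 ^ (16 * j)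

/-- coercion of real functions -/
noncomputable def cx {M : ℕ} (f : G M → ℝ) : G M → ℂ := fun x => (f x : ℂ)

open scoped Classical in
/-- block of frequencies at level `j` -/
noncomputable def DD (M j b c : ℕ) : Finset (G M) :=
  univ.filter (fun k => Band j b (fa k.1) ∧ Band j c (fa k.2))

open scoped Classical in
/-- the frequencies of a set in a column -/
noncomputable def colm {M : ℕ} (Lam : Finset (G M)) (b : ℕ) : Finset (G M) :=
  Lam.filter (fun k => 8 ^ b < 2 * fa k.1 ∧ fa k.1 < 3 * 8 ^ b)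

/-- Riesz product of the columns before `b` -/
noncomputable def Psi {M : ℕ} (h : ℕ → G M → ℝ) (b : ℕ) (x : G M) : ℝ :=
  ∏ a ∈ range b, (1 + h a x)

/-- index of a grid with `8 ^ p` times `8 ^ q` points -/
abbrev Gr (p q : ℕ) := Fin (8 ^ p) × Fin (8 ^ q)

/-- a grid point -/
def pt {M : ℕ} (p q : ℕ) (y : Gr p q) : G M := gp2 (8 ^ p) (8 ^ q) y

/-- `V_s * F`, complex -/
noncomputable def loc {M : ℕ} (j b c : ℕ) (F : G M → ℂ) : G M → ℂ := conv (cx (vs j b c)) F

/-- the range of the frequencies in the strip constraints -/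
def EE (d : ℕ) : ℕ := 2 ^ (d / 60)

/-- the strip of a function around the frequency `w` of the second variable -/
noncomputable def strip {M : ℕ} (V : ℕ) (w : ZMod (LL M)) (f : G M → ℂ) : G M → ℂ :=
  yconv (fun t => sk (5 * 8 ^ V) (15 * 8 ^ V) w t) f

/-- the frequencies used in the strip constraints at a block of height `c` -/
def WS {M : ℕ} (c V : ℕ) (w : ZMod (LL M)) : Prop :=
  (∃ i : ℕ, w = ((i * 8 ^ V : ℕ) : ZMod (LL M))) ∧ fa w ≤ 8 ^ (c + EE (c - V))

/-- admissible coefficients at the block `(b, c)` for the spacing `J` and the exponent `sg`,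
given the Riesz product `Ψ` -/
def Adm {M : ℕ} (j b c J sg : ℕ) (Ψ : G M → ℝ) (η : Gr (b + 1) (c + 1) → ℝ) : Prop :=
  (∀ y, |η y| ≤ 1) ∧ ∀ V, V + J ≤ c → ∀ w : ZMod (LL M), WS c V w → ∀ p : Gr (b + 2) (V + 2),
    |(strip V w (cx (fun x => Ψ x * hh j b c η x)) (pt (b + 2) (V + 2) p)).re|
        ≤ 8 ^ sg / 2 ^ (c - V) ∧
    |(strip V w (cx (fun x => Ψ x * hh j b c η x)) (pt (b + 2) (V + 2) p)).im|
        ≤ 8 ^ sg / 2 ^ (c - V)

/-- the value of the test functional of `F` on `η`: the mean of `η (V_s * (F Ψ))` on the grid -/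
noncomputable def tst {M : ℕ} (j b c : ℕ) (Ψ F : G M → ℝ) (η : Gr (b + 1) (c + 1) → ℝ) : ℝ :=
  avgR _ _ (fun y => η y * (loc j b c (cx (fun x => F x * Ψ x)) (pt (b + 1) (c + 1) y)).re)

/-- the columns of a test of layer `u` -/
def Rg (M u b : ℕ) : Prop := Nat.size M ≤ b ∧ b < M ∧ u ≤ b ∧ Nat.size M ≤ M + u - b

/-- a Riesz sequence of layer `u` with kernel level `j` -/
structure RS (M u j J l0 sg : ℕ) (act : Finset ℕ) (h : ℕ → G M → ℝ) : Prop where
  rng : ∀ a ∈ act, Rg M u a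
  alw : ∀ a ∈ act, H67.CM.Allowed l0 M a
  gap : ∀ a ∈ act, ∀ a' ∈ act, a < a' → a + J ≤ a'
  off : ∀ a, a ∉ act → ∀ x, h a x = 0
  adm : ∀ a ∈ act, ∃ η : Gr (a + 1) (M + u - a + 1) → ℝ,
    Adm j a (M + u - a) J sg (Psi h a) η ∧ ∀ x, h a x = hh j a (M + u - a) η x

/-- the column `b` can be used after the columns of `act` -/
structure Elg (M u J l0 : ℕ) (act : Finset ℕ) (b : ℕ) : Prop where
  rng : Rg M u b
  alw : H67.CM.Allowed l0 M b
  gap : ∀ a ∈ act, a + J ≤ b

/-- a configuration: a real function with its spectrum -/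
structure Cf (M : ℕ) where
  g : G M → ℝ
  Lam : Finset (G M)
  spec : ∀ k, k ∉ Lam → co2 (cx g) k = 0

/-- knowledge at level `j` (the level of the layer `u` is `j0 + size u`); the good columns have at
most `8 ^ M` frequencies -/
def Know {M : ℕ} (j0 j : ℕ) (phi : G M → ℂ) (w : Cf M) : Prop :=
  (∀ k, phi k ≠ 0 → k ∈ w.Lam) ∧
  ∀ b u, Rg M u b → (colm w.Lam b).card ≤ 8 ^ M →
    ∀ k ∈ DD M j b (M + u - b),
      ‖co2 (cx w.g) k - phi k‖ ^ 2 ≤ TH (max j (j0 + Nat.size u)) / 8 ^ M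

/-- knowledge of one block at level `j` -/
def KnB {M : ℕ} (j b c : ℕ) (phi : G M → ℂ) (w : Cf M) : Prop :=
  (∀ k, phi k ≠ 0 → k ∈ w.Lam) ∧ ∀ k ∈ DD M j b c, ‖co2 (cx w.g) k - phi k‖ ^ 2 ≤ TH j / 8 ^ M

/-- the function `w_lam = V_s * ((Psi - 1) chi_lam)` -/
noncomputable def wl {M : ℕ} (j b c : ℕ) (Ψ : G M → ℝ) (lam : G M) : G M → ℂ :=
  loc j b c (fun x => ((Ψ x : ℂ) - 1) * ch2 lam x)

/-- the spacing of the test of layer `u` at level `j` -/
def JJ (u j : ℕ) : ℕ := 300 * (u + j + 1)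

/-- the exponent of the strip constraints -/
def SG (u j : ℕ) : ℕ := 8 * (u + j)

end Pool.Agent.H98.CP
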