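import Pool.Agent.H98.CP.Defs
import Pool.Agent.H75.MT.Union

set_option autoImplicit false

/-! Statements of the modules of the compression argument. -/

namespace Pool.Agent.H98.CP

open Finset ComplexConjugate H95.CP H67.CM

/-- the group is large for the base level `j0` -/
def Big (j0 M : ℕ) : Prop := 1000 * (j0 + Nat.size M + 10) ≤ M

/-- the kernels of level `j` exist on all blocks in use -/
def Lg (M j : ℕ) : Prop := 100 * (j + 2) ^ 2 ≤ 8 ^ Nat.size M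

/-- the spacing is large for the kernel level and the allowed columns -/
def Jok (j J l0 : ℕ) : Prop := 1000 * (j + 2) ^ 2 ≤ 8 ^ J ∧ 10 ≤ l0 ∧ 60 * (l0 + 1) ≤ J

/-! ### facts about Riesz sequences -/

/-- the factors are bounded by `1/2` -/
def StHalf : Prop := ∀ (M u j J l0 sg : ℕ) (act : Finset ℕ) (h : ℕ → G M → ℝ),
  RS M u j J l0 sg act h → Lg M j → ∀ a x, |h a x| ≤ 1 / 2

/-- the product is nonnegative with mean one -/
def StPsi : Prop := ∀ (M u j J l0 sg : ℕ) (act : Finset ℕ) (h : ℕ → G M → ℝ),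
  RS M u j J l0 sg act h → Lg M j → Jok j J l0 →
    ∀ b, (∀ x, 0 ≤ Psi h b x) ∧ ER (fun x => Psi h b x) = 1

/-- the pairing of the test function -/
def StPair : Prop := ∀ (M j b c : ℕ) (F Ψ : G M → ℝ) (η : Gr (b + 1) (c + 1) → ℝ),
  ER (fun x => F x * (Ψ x * hh j b c η x)) = (1 / (2 * CV j)) * tst j b c Ψ F η

/-- telescoping: the sum of the test values is bounded; `η a` are the coefficients of the
factors -/
def StTele : Prop := ∀ (M u j J l0 sg : ℕ) (act : Finset ℕ) (h : ℕ → G M → ℝ),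
  RS M u j J l0 sg act h → Lg M j → Jok j J l0 →
    ∀ (F : G M → ℝ) (A : ℝ), (∀ x, |F x| ≤ A) →
      ∀ n, ∑ a ∈ range n, ER (fun x => F x * (Psi h a x * h a x)) ≤ 2 * A

/-- the functions `w_lam`: localisation and bound -/
def StWl : Prop := ∀ (M u j J l0 sg : ℕ) (act : Finset ℕ) (h : ℕ → G M → ℝ) (b : ℕ),
  RS M u j J l0 sg act h → Lg M j → Jok j J l0 → Elg M u J l0 act b →
    ∀ lam : G M, (∀ x, wl j b (M + u - b) (Psi h b) lam x = 0) ∨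
      ∃ a ∈ act, lam ∈ DD M (j + 1) b (M + u - a) ∧
        ∀ x, ‖wl j b (M + u - b) (Psi h b) lam x‖ ≤ 64 * CV j * 8 ^ sg / 2 ^ gapLen J (b - a)

/-- the strip functionals -/
def StAtom : Prop := ∀ (M u j J l0 sg : ℕ) (act : Finset ℕ) (h : ℕ → G M → ℝ) (b : ℕ),
  RS M u j J l0 sg act h → Lg M j → Jok j J l0 → Elg M u J l0 act b →
    ∀ V, V + J ≤ M + u - b → ∀ (w : ZMod (LL M)) (p : Gr (b + 2) (V + 2)),
      ∃ Φ : G M → ℂ,
        (∀ η : Gr (b + 1) (M + u - b + 1) → ℝ,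
          strip V w (cx (fun x => Psi h b x * hh j b (M + u - b) η x)) (pt _ _ p)
            = avg _ _ (fun y => (η y : ℂ) * Φ (pt (b + 1) (M + u - b + 1) y))) ∧
        (∀ k, co2 Φ k ≠ 0 → Half j b (fa k.1) ∧ Half j (M + u - b) (fa k.2)) ∧
        ∑ k, ‖co2 Φ k‖ ^ 2 ≤ 8 ^ (b + V)

/-- adding an admissible factor -/
def StAdd : Prop := ∀ (M u j J l0 sg : ℕ) (act : Finset ℕ) (h : ℕ → G M → ℝ) (b : ℕ)
    (η : Gr (b + 1) (M + u - b + 1) → ℝ),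
  RS M u j J l0 sg act h → Elg M u J l0 act b → 0 < J →
    Adm j b (M + u - b) J sg (Psi h b) η →
    RS M u j J l0 sg (insert b act) (Function.update h b (fun x => hh j b (M + u - b) η x))

/-! ### one column of a level test -/

/-- cost of an inactive column -/
noncomputable def cin (M u j : ℕ) : ℝ := 8 ^ M * ((u : ℝ) + j + 1) / 8 ^ (3 * j) + 4 ^ M

/-- cost of an exceptional column -/
noncomputable def cex (M u j : ℕ) : ℝ := 400 * 8 ^ M * ((u : ℝ) + j + 1)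

/-- hypotheses on the parameters of a level test: base level `j0 ≥ j1`, layer `u`, level `j` -/
structure Par (j1 j0 j u M : ℕ) : Prop where
  h1 : j1 ≤ j0
  h2 : j0 + Nat.size u ≤ j
  h3 : j ≤ j0 + Nat.size M
  big : Big j0 M

/-- an inactive column -/
def StColIn : Prop := ∃ j1 : ℕ, ∀ j0 j u M, Par j1 j0 j u M →
  ∀ (act : Finset ℕ) (h : ℕ → G M → ℝ) (b : ℕ) (phi : G M → ℂ),
    RS M u j (JJ u j) (4 * j) (SG u j) act h → Elg M u (JJ u j) (4 * j) act b →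
    ∃ PP : Finset (G M → ℂ), (PP.card : ℝ) ≤ 2 ^ cin M u j ∧
      ∀ w : Cf M, Know j0 (j + 1) phi w → (colm w.Lam b).card ≤ 8 ^ M →
        (∀ η, Adm j b (M + u - b) (JJ u j) (SG u j) (Psi h b) η →
          tst j b (M + u - b) (Psi h b) w.g η < 8 ^ (2 * j)) →
        ∃ psi ∈ PP, KnB j b (M + u - b) psi w ∧ ∀ k, k ∉ DD M j b (M + u - b) → psi k = 0

/-- a column described by a list -/
def StColList : Prop := ∃ j1 : ℕ, ∀ j0 j u M, Par j1 j0 j u M →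
  ∀ (b : ℕ) (phi : G M → ℂ), Rg M u b →
    ∃ PP : Finset (G M → ℂ), (PP.card : ℝ) ≤ 2 ^ cex M u j ∧
      ∀ w : Cf M, Know j0 (j + 1) phi w → (colm w.Lam b).card ≤ 8 ^ M →
        ∃ psi ∈ PP, KnB j b (M + u - b) psi w ∧ ∀ k, k ∉ DD M j b (M + u - b) → psi k = 0

/-- an active column -/
def StColAct : Prop := ∃ j1 : ℕ, ∀ j0 j u M, Par j1 j0 j u M →
  ∀ (act : Finset ℕ) (h : ℕ → G M → ℝ) (b : ℕ) (phi : G M → ℂ),
    RS M u j (JJ u j) (4 * j) (SG u j) act h → Elg M u (JJ u j) (4 * j) act b →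
    ∃ PP : Finset ((Gr (b + 1) (M + u - b + 1) → ℝ) × (G M → ℂ)),
      (PP.card : ℝ) ≤ 2 ^ cex M u j ∧
      ∀ w : Cf M, Know j0 (j + 1) phi w → (colm w.Lam b).card ≤ 8 ^ M →
        (∃ η, Adm j b (M + u - b) (JJ u j) (SG u j) (Psi h b) η ∧
          8 ^ (2 * j) ≤ tst j b (M + u - b) (Psi h b) w.g η) →
        ∃ p ∈ PP, Adm j b (M + u - b) (JJ u j) (SG u j) (Psi h b) p.1 ∧
          8 ^ (2 * j) / 2 ≤ tst j b (M + u - b) (Psi h b) w.g p.1 ∧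
          KnB j b (M + u - b) p.2 w ∧ ∀ k, k ∉ DD M j b (M + u - b) → p.2 k = 0

/-! ### the level tests -/

/-- cost of a test -/
noncomputable def ctest (A : ℝ) (M u j : ℕ) : ℝ :=
  (M : ℝ) * (cin M u j + 4) +
    (8 * CV j * A * M * JJ u j / 8 ^ (2 * j) + 240 * (4 * j + 3) * (M : ℝ) / 2 ^ (4 * j))
      * (cex M u j + 4)

/-- the test of layer `u` at level `j` -/
def StTest : Prop := ∃ j1 : ℕ, ∀ (A : ℝ), 1 ≤ A → ∀ j0 j u M, Par j1 j0 j u M →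
  ∀ (S : Set (Cf M)) (phi : G M → ℂ),
    (∀ w ∈ S, Know j0 (j + 1) phi w ∧ ∀ x, |w.g x| ≤ A * M) →
    ∃ psi : Cf M → G M → ℂ, Kraft S psi (fun _ => ctest A M u j) ∧
      ∀ w ∈ S, (∀ k, psi w k ≠ 0 → k ∈ w.Lam) ∧
        ∀ b, Rg M u b → (colm w.Lam b).card ≤ 8 ^ M →
          ∀ k ∈ DD M j b (M + u - b), ‖co2 (cx w.g) k - psi w k‖ ^ 2 ≤ TH j / 8 ^ M

open scoped Classical in
/-- the layers tested at level `j` -/
noncomputable def lay (j0 j M : ℕ) : Finset ℕ :=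
  (range (M + 1)).filter (fun u => j0 + Nat.size u ≤ j)

/-- one level -/
def StLevel : Prop := ∃ j1 : ℕ, ∀ (A : ℝ), 1 ≤ A → ∀ j0 j M, j1 ≤ j0 → j0 ≤ j →
  j < j0 + Nat.size M → Big j0 M →
  ∀ (S : Set (Cf M)) (phi : G M → ℂ),
    (∀ w ∈ S, Know j0 (j + 1) phi w ∧ ∀ x, |w.g x| ≤ A * M) →
    ∃ psi : Cf M → G M → ℂ, Kraft S psi (fun _ => ∑ u ∈ lay j0 j M, ctest A M u j) ∧
      ∀ w ∈ S, Know j0 j (psi w) w

/-- the highest level -/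
def StTop : Prop := ∀ (A : ℝ), 1 ≤ A → ∃ j1 : ℕ, ∀ j0 M, j1 ≤ j0 → Big j0 M →
  ∀ (S : Set (Cf M)), (∀ w ∈ S, ∀ x, |w.g x| ≤ A * M) →
    ∃ psi : Cf M → G M → ℂ, Kraft S psi (fun _ => 8 ^ M) ∧
      ∀ w ∈ S, Know j0 (j0 + Nat.size M) (psi w) w

/-- the sum of the costs -/
def StSum : Prop := ∀ (A c : ℝ), 1 ≤ A → 0 < c → ∃ j1 : ℕ, ∀ j0, j1 ≤ j0 → ∃ M1 : ℕ, ∀ M, M1 ≤ M →
  Big j0 M ∧ 8 ^ M + ∑ j ∈ Ico j0 (j0 + Nat.size M), ∑ u ∈ lay j0 j M, ctest A M u j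
    ≤ c * M * 8 ^ M

/-- the compression theorem -/
def StComp : Prop := ∀ (A c : ℝ), 1 ≤ A → 0 < c → ∃ j1 : ℕ, ∀ j0, j1 ≤ j0 → ∃ M1 : ℕ, ∀ M, M1 ≤ M →
  ∀ (S : Set (Cf M)), (∀ w ∈ S, ∀ x, |w.g x| ≤ A * M) →
    ∃ psi : Cf M → G M → ℂ, Kraft S psi (fun _ => c * M * 8 ^ M) ∧
      ∀ w ∈ S, Know j0 j0 (psi w) w

/-! ### the final test -/

/-- the blocks of the extremal function -/
structure TB (M : ℕ) where
  t : ℕ → Finset (Fin (8 ^ M)) → G M → ℝ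
  spec : ∀ b s k, 1 ≤ b → b < M → co2 (cx (t b s)) k ≠ 0 → k ∈ DD M 0 b (M - b)
  idx : ∀ b, Fin (8 ^ M) → Gr (b + 1) (M - b + 1)
  inj : ∀ b, 1 ≤ b → b < M → Function.Injective (idx b)
  val : ∀ b s i, 1 ≤ b → b < M → t b s (pt (b + 1) (M - b + 1) (idx b i)) = if i ∈ s then 1 else -1

/-- the extremal function -/
noncomputable def TB.T {M : ℕ} (tb : TB M) (ε : ℕ → Finset (Fin (8 ^ M))) (x : G M) : ℝ :=
  ∑ b ∈ Ico 1 M, tb.t b (ε b) x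

/-- the blocks of the extremal function in the test -/
def StTloc : Prop := ∀ (M J l0 sg : ℕ) (act : Finset ℕ) (h : ℕ → G M → ℝ) (b : ℕ),
  RS M 0 0 J l0 sg act h → Lg M 0 → Jok 0 J l0 → Elg M 0 J l0 act b →
    ∀ (tb : TB M) (ε : ℕ → Finset (Fin (8 ^ M))) (x : G M),
      loc 0 b (M - b) (cx (fun z => tb.T ε z * Psi h b z)) x = tb.t b (ε b) x

/-- spacing of the final test -/
def JF (lf : ℕ) : ℕ := 60 * (lf + 1)

/-- an inactive column of the final test -/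
def StFinIn : Prop := ∃ j1 : ℕ, ∀ j0, j1 ≤ j0 → ∃ l1 : ℕ, ∀ lf, l1 ≤ lf → ∃ M1 : ℕ, ∀ M, M1 ≤ M →
  ∀ (tb : TB M) (act : Finset ℕ) (h : ℕ → G M → ℝ) (b : ℕ) (phi : G M → ℂ),
    RS M 0 0 (JF lf) lf 0 act h → Elg M 0 (JF lf) lf act b →
    ∃ PP : Finset (Finset (Fin (8 ^ M))), (PP.card : ℝ) ≤ 2 ^ ((8 : ℝ) ^ M / 4) ∧
      ∀ (w : Cf M) (T : G M → ℝ) (s : Finset (Fin (8 ^ M))), Know j0 j0 phi w →
        (colm w.Lam b).card ≤ 8 ^ (M - 4) →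
        (∀ x, loc 0 b (M - b) (cx (fun z => T z * Psi h b z)) x = tb.t b s x) →
        (∀ η, Adm 0 b (M - b) (JF lf) 0 (Psi h b) η →
          tst 0 b (M - b) (Psi h b) (fun x => T x - w.g x) η < 1 / 2 ^ 20) →
        s ∈ PP

/-- an active column of the final test -/
def StFinAct : Prop := ∃ j1 : ℕ, ∀ j0, j1 ≤ j0 → ∃ l1 : ℕ, ∀ lf, l1 ≤ lf → ∃ M1 : ℕ, ∀ M, M1 ≤ M →
  ∀ (tb : TB M) (act : Finset ℕ) (h : ℕ → G M → ℝ) (b : ℕ) (phi : G M → ℂ),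
    RS M 0 0 (JF lf) lf 0 act h → Elg M 0 (JF lf) lf act b →
    ∃ PP : Finset (Finset (Fin (8 ^ M)) × (Gr (b + 1) (M - b + 1) → ℝ)),
      (PP.card : ℝ) ≤ 2 ^ (1000 * ((j0 : ℝ) + 1) * 8 ^ M) ∧
      ∀ (w : Cf M) (T : G M → ℝ) (s : Finset (Fin (8 ^ M))), Know j0 j0 phi w →
        (colm w.Lam b).card ≤ 8 ^ M →
        (∀ x, loc 0 b (M - b) (cx (fun z => T z * Psi h b z)) x = tb.t b s x) →
        (∃ η, Adm 0 b (M - b) (JF lf) 0 (Psi h b) η ∧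
          1 / 2 ^ 20 ≤ tst 0 b (M - b) (Psi h b) (fun x => T x - w.g x) η) →
        ∃ p ∈ PP, p.1 = s ∧ Adm 0 b (M - b) (JF lf) 0 (Psi h b) p.2 ∧
          1 / 2 ^ 21 ≤ tst 0 b (M - b) (Psi h b) (fun x => T x - w.g x) p.2

/-- the final count -/
def StFinal : Prop := ∀ A : ℝ, 1 ≤ A → ∃ c : ℝ, 0 < c ∧ ∃ M1 : ℕ, ∀ M, M1 ≤ M →
  ∀ (tb : TB M) (S : Finset (ℕ → Finset (Fin (8 ^ M)))),
    (∀ ε ∈ S, (∀ b, b = 0 ∨ M ≤ b → ε b = ∅) ∧ ∃ w : Cf M, (w.Lam.card : ℝ) ≤ c * M * 8 ^ M ∧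
      (∀ x, |w.g x| ≤ A * M) ∧ ∀ x, |tb.T ε x - w.g x| ≤ c * M) →
    (S.card : ℝ) ≤ 2 ^ ((M : ℝ) * 8 ^ M / 2)

/-! ### transfer to the torus -/

/-- the point of the torus -/
noncomputable def tpt {M : ℕ} (x : G M) : H75.MT.T2 :=
  fun i => (((if i = 0 then (x.1.val : ℝ) else (x.2.val : ℝ)) / (8 : ℝ) ^ (M + 2) : ℝ) : UnitAddCircle)

/-- the blocks of `MT` give blocks on the group, `M = K + 2` -/
def StTB : Prop := ∀ K : ℕ, 2 ≤ K → ∃ tb : TB (K + 2),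
  ∀ (ε : Fin (K + 1) → Finset (H75.MT.YK K)) (x : G (K + 2)),
    ((H75.MT.TT K (K + 1) (H75.MT.aa K (H75.MT.ext ε))) (tpt x)).re
      = tb.T (fun b => if b = 0 then ∅ else H75.MT.ext ε (b - 1)) x

/-- restriction of a trigonometric polynomial -/
def StRes : Prop := ∀ (M : ℕ) (Lf : Finset (Fin 2 → ℤ)) (d : (Fin 2 → ℤ) → ℂ),
  ∃ w : Cf M, w.Lam.card ≤ 2 * Lf.card ∧ ∀ x, w.g x = ((H75.MT.tp Lf d) (tpt x)).re

open scoped Classical in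
/-- the extremal function is bounded by `A M` on the group for most sign vectors -/
def StSupT : Prop := ∃ A : ℝ, 1 ≤ A ∧ ∃ K0 : ℕ, ∀ K, K0 ≤ K →
  8 * (univ.filter (fun ε : Fin (K + 1) → Finset (H75.MT.YK K) => ∃ x : G (K + 2),
    A * ((K : ℝ) + 2) < |((H75.MT.TT K (K + 1) (H75.MT.aa K (H75.MT.ext ε))) (tpt x)).re|)).card
    ≤ 2 ^ (8 ^ (K + 2) * (K + 1))

open scoped Classical in
/-- the lower bound for most sign vectors -/
def StCore : Prop := ∃ c : ℝ, 0 < c ∧ ∃ K0 : ℕ, ∀ K, K0 ≤ K →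
  4 * (univ.filter (fun ε : Fin (K + 1) → Finset (H75.MT.YK K) =>
    ∃ (Lf : Finset (Fin 2 → ℤ)) (d : (Fin 2 → ℤ) → ℂ), (Lf.card : ℝ) ≤ c * K * 8 ^ K ∧
      ∀ x, ‖(H75.MT.TT K (K + 1) (H75.MT.aa K (H75.MT.ext ε)) - H75.MT.tp Lf d) x‖
        ≤ c * K)).card ≤ 2 ^ (8 ^ (K + 2) * (K + 1))

end Pool.Agent.H98.CP
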